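import Pool.Agent.TH791.Final

/-!
# The Thomas-Fermi energy is not a lower bound for the quantum energy (MP_f7be6d_mp, Q1: disproved)

Neutral hydrogen (`N` electrons, `N` nuclei of charge one) compressed to a high density: for every
`M` there are `N` and distinct positions of the nuclei with `E^Q + M N < E^TF`.

The definitions are in `Pool/Agent/TH791/Defs.lean`. Idea of the proof: the trial state is a Slater
determinant of plane waves with a smooth window in a box of side `L`, Fermi momentum `κ`. Averaged
over independent positions of the nuclei with the same density as the electrons, its direct Coulomb
energies cancel, and its exchange energy is at most `-c κ N`. The Thomas-Fermi energy is bounded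
below by replacing the nuclei by balls of radius of order `κ^(-1/2)` (Newton, positivity of the
Coulomb energy), Young's inequality for the remaining short range potential, and a bound for the
moment of order `5/2` of a sum of independent variables; the total loss is of order `κ^(1/2) N`.
-/

set_option autoImplicit false

namespace Pool.Agent.Results.MP_f7be6d_mp.TFNotLowerBound

open Pool.Agent.TH791.QM

/-- For every real `M` there are `N ≥ 1` and distinct points `R_1, …, R_N` such that for `N`
electrons and `N` nuclei of charge one at these points `E^Q + M N < E^TF`. -/
theorem result (M : ℝ) : ∃ N : ℕ, 1 ≤ N ∧ ∃ R : Fin N → EuclideanSpace ℝ (Fin 3),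
    Function.Injective R ∧
      EQ N (fun _ : Fin N => (1 : ℝ)) R + ((M * N : ℝ) : EReal) <
        ETF N (fun _ : Fin N => (1 : ℝ)) R :=
  Pool.Agent.TH791.Fi.main M

end Pool.Agent.Results.MP_f7be6d_mp.TFNotLowerBound
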